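import Pool.Agent.H31.AL.Window
import Pool.Agent.H29.Kap.Alpha

/-!
# The second-order expansion of the cluster density at the critical point
-/

open MeasureTheory ProbabilityTheory unitInterval Filter Topology

namespace Pool.Agent.H31.AL

open Pool.Agent.H89.Perc Pool.Agent.H61.NC Pool.Agent.H31.EX Pool.Agent.H29.Sep
open Pool.Agent.H29.Kap

/-- From a first-order expansion of `τ` to the expansion of the cluster density. -/
theorem rem_of_tau {β C δ v : ℝ} (hC : 0 < C) (hδ : 0 < δ) (hv : 1 < v)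
    (h : ∀ t : ℝ, |t| ≤ δ → |tauR (1 / 2 + t) - tauR (1 / 2) - β * t| ≤ C * |t| ^ v) :
    ∃ δ' > (0 : ℝ), ∀ p : ℝ, |p - 1 / 2| ≤ δ' → |Rem kap p| ≤ 2 * C * |p - 1 / 2| ^ (1 + v) := by
  have h0 : (1 / 4 : ℝ) < 1 / 2 ∧ (1 / 2 : ℝ) < 3 / 4 := by norm_num
  have hd0 : deriv kap (1 / 2) = -(2 * (1 - tauR (1 / 2))) := (kap_hasDerivAt h0.1 h0.2).deriv
  have hder : ∀ x : ℝ, |x - 1 / 2| < 1 / 4 → deriv kap x = -(2 * (1 - tauR x)) := by
    intro x hx
    have := abs_lt.1 hx
    exact (kap_hasDerivAt (by linarith) (by linarith)).deriv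
  -- second derivative
  have hdd : HasDerivAt (deriv kap) (2 * β) (1 / 2) := by
    rw [hasDerivAt_iff_isLittleO]
    have hO : (fun x : ℝ => deriv kap x - deriv kap (1 / 2) - (x - 1 / 2) • (2 * β)) =O[𝓝 (1 / 2)]
        fun x : ℝ => |x - 1 / 2| ^ v := by
      refine Asymptotics.IsBigO.of_bound (2 * C) ?_
      have hm : 0 < min δ (1 / 4) := lt_min hδ (by norm_num)
      filter_upwards [Metric.ball_mem_nhds (1 / 2 : ℝ) hm] with x hx
      rw [Metric.mem_ball, Real.dist_eq] at hx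
      have h1 := h (x - 1 / 2) (hx.le.trans (min_le_left _ _))
      rw [add_sub_cancel] at h1
      rw [hder x (hx.trans_le (min_le_right _ _)), hd0, Real.norm_eq_abs, Real.norm_eq_abs,
        abs_of_nonneg (Real.rpow_nonneg (abs_nonneg _) v), smul_eq_mul]
      have e : -(2 * (1 - tauR x)) - -(2 * (1 - tauR (1 / 2))) - (x - 1 / 2) * (2 * β) =
          2 * (tauR x - tauR (1 / 2) - β * (x - 1 / 2)) := by ring
      rw [e, abs_mul, abs_of_pos (by norm_num : (0 : ℝ) < 2)]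
      linarith
    refine hO.trans_isLittleO ?_
    have hl : (fun x : ℝ => |x - 1 / 2| ^ v) = fun x : ℝ => |x - 1 / 2| ^ (v - 1) * |x - 1 / 2| := by
      funext x
      rcases eq_or_ne (x - 1 / 2) 0 with h1 | h1
      · rw [h1, abs_zero, mul_zero, Real.zero_rpow (by linarith)]
      · have h2 : 0 < |x - 1 / 2| := abs_pos.2 h1
        nth_rw 3 [← Real.rpow_one |x - 1 / 2|]
        rw [← Real.rpow_add h2]
        congr 1
        ring
    rw [hl]
    have h1 : (fun x : ℝ => |x - 1 / 2| ^ (v - 1)) =o[𝓝 (1 / 2)] fun _ : ℝ => (1 : ℝ) := by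
      rw [Asymptotics.isLittleO_one_iff]
      have h2 : ContinuousAt (fun x : ℝ => |x - 1 / 2| ^ (v - 1)) (1 / 2) := by
        refine ContinuousAt.rpow_const ?_ (Or.inr (by linarith))
        exact (continuous_abs.comp (continuous_id.sub continuous_const)).continuousAt
      have h3 := h2.tendsto
      rw [sub_self, abs_zero, Real.zero_rpow (by linarith)] at h3
      exact h3
    have h2 : (fun x : ℝ => |x - 1 / 2|) =O[𝓝 (1 / 2)] fun x : ℝ => x - 1 / 2 :=
      Asymptotics.IsBigO.of_bound 1 (by simp)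
    have h3 := h1.mul_isBigO h2
    simpa using h3
  have hdd' : deriv (deriv kap) (1 / 2) = 2 * β := hdd.deriv
  refine ⟨min δ (1 / 8), lt_min hδ (by norm_num), fun p hp => ?_⟩
  have hpδ : |p - 1 / 2| ≤ δ := hp.trans (min_le_left _ _)
  have hp8 : |p - 1 / 2| ≤ 1 / 8 := hp.trans (min_le_right _ _)
  have hx0m : (1 / 2 : ℝ) ∈ Metric.closedBall (1 / 2 : ℝ) |p - 1 / 2| := by
    rw [Metric.mem_closedBall, dist_self]; exact abs_nonneg _
  have hxm : p ∈ Metric.closedBall (1 / 2 : ℝ) |p - 1 / 2| := by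
    rw [Metric.mem_closedBall, Real.dist_eq]
  have h3 := (convex_closedBall (1 / 2 : ℝ) |p - 1 / 2|).norm_image_sub_le_of_norm_hasDerivWithin_le
      (f := Rem kap) (f' := fun z => 2 * (tauR z - tauR (1 / 2) - β * (z - 1 / 2)))
      (C := 2 * (C * |p - 1 / 2| ^ v))
      (fun z hz => by
        rw [Metric.mem_closedBall, Real.dist_eq] at hz
        have hz8 := abs_le.1 (hz.trans hp8)
        have h4 := kap_hasDerivAt (x := z) (by linarith) (by linarith)
        have h5 : HasDerivAt (fun z : ℝ => z - 1 / 2) 1 z := (hasDerivAt_id z).sub_const _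
        have h6 := ((h4.sub_const (kap (1 / 2))).sub (h5.const_mul (deriv kap (1 / 2)))).sub
          ((h5.pow 2).const_mul (1 / 2 * deriv (deriv kap) (1 / 2)))
        refine HasDerivAt.hasDerivWithinAt (h6.congr_deriv ?_)
        rw [hd0, hdd']
        simp only [Nat.cast_ofNat, Nat.add_one_sub_one, pow_one]
        ring)
      (fun z hz => by
        rw [Metric.mem_closedBall, Real.dist_eq] at hz
        have h4 := h (z - 1 / 2) (hz.trans hpδ)
        rw [add_sub_cancel] at h4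
        rw [Real.norm_eq_abs, abs_mul, abs_of_pos (by norm_num : (0 : ℝ) < 2)]
        have h5 : |z - 1 / 2| ^ v ≤ |p - 1 / 2| ^ v :=
          Real.rpow_le_rpow (abs_nonneg _) hz (by linarith)
        have h6 : C * |z - 1 / 2| ^ v ≤ C * |p - 1 / 2| ^ v := mul_le_mul_of_nonneg_left h5 hC.le
        linarith) hx0m hxm
  rw [Real.norm_eq_abs, Real.norm_eq_abs] at h3
  have hR0 : Rem kap (1 / 2) = 0 := by unfold Rem; simp
  rw [hR0, sub_zero] at h3
  refine h3.trans (le_of_eq ?_)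
  rcases eq_or_ne (p - 1 / 2) 0 with h1 | h1
  · rw [h1, abs_zero, Real.zero_rpow (by linarith), Real.zero_rpow (by linarith)]
    ring
  · have h2 : 0 < |p - 1 / 2| := abs_pos.2 h1
    rw [add_comm 1 v, Real.rpow_add h2, Real.rpow_one]
    ring

/-- The remainder of the second-order expansion of the cluster density at `1 / 2` is at most
`|p - 1/2| ^ (2 ν - o(1))`. -/
theorem rem_le (hGL : GLTorus) (hQM : QMann) {a : ℝ} (ha : 1 < a) (ha2 : a < 4 / 3)
    (h4 : PN (a4 half) a) {v : ℝ} (hv : v < 2 / (2 - a)) :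
    ∃ C > (0 : ℝ), ∃ δ > (0 : ℝ), ∀ p : ℝ, |p - 1 / 2| ≤ δ →
      |Rem kap p| ≤ C * |p - 1 / 2| ^ v := by
  -- the choice of `ε`
  have h2a : 0 < 2 - a := by linarith
  obtain ⟨ε, hε, hεa, hvε⟩ : ∃ ε > (0 : ℝ), ε < a - 1 ∧ v ≤ 2 / ((2 - a) + ε) := by
    have hcont : ContinuousAt (fun ε : ℝ => 2 / ((2 - a) + ε)) 0 :=
      continuousAt_const.div (continuousAt_const.add continuousAt_id) (by simpa using h2a.ne')
    have h1 := hcont.tendsto
    rw [add_zero] at h1
    have h2 : ∀ᶠ ε in 𝓝[>] (0 : ℝ), v < 2 / ((2 - a) + ε) :=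
      (h1.mono_left nhdsWithin_le_nhds).eventually (lt_mem_nhds hv)
    obtain ⟨ε, h3, h4⟩ := (h2.and (Ioo_mem_nhdsGT (by linarith : (0 : ℝ) < a - 1))).exists
    exact ⟨ε, h4.1, h4.2, h3.le⟩
  obtain ⟨c, hc, C, hC, k₀, b, hb⟩ := window_tau hGL hQM ha2 h4 hε hεa
  obtain ⟨β, C', δ, hC', hδ, hβ⟩ := dyadic (f := fun t => tauR (1 / 2 + t) - tauR (1 / 2))
    (by simp) hc hC (w := (2 - a) + ε) (u := a - ε) (by linarith) (by linarith)
    (fun k hk t ht => hb k hk t ht)
  obtain ⟨δ', hδ', hR⟩ := rem_of_tau hC' hδ (v := (a - ε) / ((2 - a) + ε)) (by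
    rw [one_lt_div (by linarith)]
    linarith) hβ
  refine ⟨2 * C', by positivity, min δ' 1, lt_min hδ' one_pos, fun p hp => ?_⟩
  refine (hR p (hp.trans (min_le_left _ _))).trans ?_
  refine mul_le_mul_of_nonneg_left ?_ (by positivity)
  have e : 1 + (a - ε) / ((2 - a) + ε) = 2 / ((2 - a) + ε) := by
    have : (2 - a) + ε ≠ 0 := by linarith
    field_simp
    ring
  rw [e]
  rcases eq_or_ne (p - 1 / 2) 0 with h1 | h1
  · rw [h1, abs_zero, Real.zero_rpow (by
      have : 0 < 2 / ((2 - a) + ε) := div_pos two_pos (by linarith)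
      exact this.ne')]
    exact Real.rpow_nonneg le_rfl _
  · exact Real.rpow_le_rpow_of_exponent_ge (abs_pos.2 h1) (hp.trans (min_le_right _ _)) hvε

/-- Bounds for the remainder give a bound for the exponent. -/
theorem alpha_le {κ : ℝ → ℝ} {v₀ α₀ : ℝ}
    (h : ∀ v < v₀, ∃ C > (0 : ℝ), ∃ δ > (0 : ℝ), ∀ p : ℝ, |p - 1 / 2| ≤ δ →
      |Rem κ p| ≤ C * |p - 1 / 2| ^ v) (hα : HasAlpha κ α₀) : α₀ ≤ 2 - v₀ := by
  by_contra hcon
  push Not at hcon
  obtain ⟨v, hv1, hv2⟩ := exists_between (show 2 - α₀ < v₀ by linarith)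
  obtain ⟨C', -, δ, hδ, hC'⟩ := h v hv2
  set ε : ℝ := (v - (2 - α₀)) / 2 with hε
  have hε0 : 0 < ε := by rw [hε]; linarith
  obtain ⟨δ', hδ', hα'⟩ := hα ε hε0
  set s : ℝ := 2 - α₀ + ε with hs
  have hst : v - s = ε := by rw [hs, hε]; ring
  have key : ∀ x : ℝ, 0 < x → x < min (min δ δ') (1 / 2) → 1 ≤ C' * x ^ ε := by
    intro x hx0 hx
    have hxδ : x < δ := hx.trans_le ((min_le_left _ _).trans (min_le_left _ _))
    have hxδ' : x < δ' := hx.trans_le ((min_le_left _ _).trans (min_le_right _ _))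
    have hx2 : x < 1 / 2 := hx.trans_le (min_le_right _ _)
    have e2 : |1 / 2 + x - 1 / 2| = x := by
      rw [add_sub_cancel_left, abs_of_pos hx0]
    have g1 := hC' (1 / 2 + x) (by rw [e2]; exact hxδ.le)
    have g2 := (hα' (1 / 2 + x) (by linarith) (by linarith) (by linarith)
      (by rw [e2]; exact hxδ')).1
    rw [e2] at g1 g2
    have g3 : x ^ s ≤ C' * x ^ v := g2.trans g1
    have e3 : x ^ v = x ^ s * x ^ ε := by
      rw [← Real.rpow_add hx0]; congr 1; linarith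
    rw [e3] at g3
    have hxs : 0 < x ^ s := Real.rpow_pos_of_pos hx0 s
    have g4 : x ^ s * 1 ≤ x ^ s * (C' * x ^ ε) := by linarith
    exact le_of_mul_le_mul_left g4 hxs
  have hlim : Tendsto (fun x : ℝ => C' * x ^ ε) (nhdsWithin 0 (Set.Ioi 0)) (nhds 0) := by
    have h1 : Tendsto (fun x : ℝ => x ^ ε) (nhdsWithin 0 (Set.Ioi 0)) (nhds 0) := by
      have h2 := (Real.continuousAt_rpow_const 0 ε (Or.inr hε0.le)).tendsto
      rw [Real.zero_rpow hε0.ne'] at h2
      exact h2.mono_left nhdsWithin_le_nhds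
    simpa using h1.const_mul C'
  have hm : 0 < min (min δ δ') (1 / 2) := by positivity
  have hev2 := (hlim.eventually (gt_mem_nhds (one_pos))).and (Ioo_mem_nhdsGT hm)
  obtain ⟨x, hx1, hx2⟩ := hev2.exists
  have := key x hx2.1 hx2.2
  linarith

/-- **Hyperscaling inequality for the cluster density**: `α ≤ 2 - 2 ν`. -/
theorem alpha_bound (hGL : GLTorus) (hQM : QMann) {a : ℝ} (ha : 1 < a) (ha2 : a < 4 / 3)
    (h4 : PN (a4 half) a) {α₀ : ℝ} (hα : HasAlpha kap α₀) : α₀ ≤ 2 - 2 / (2 - a) :=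
  alpha_le (fun _ hv => rem_le hGL hQM ha ha2 h4 hv) hα

end Pool.Agent.H31.AL
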