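import Pool.Agent.H61.NC.A4Basic
import Pool.Agent.H29.Sep.Iface

/-!
# The probability that the endpoints of an edge are connected off the edge: definitions
-/

open MeasureTheory ProbabilityTheory unitInterval

namespace Pool.Agent.H31.AL

open Pool.Agent.H89.Perc Pool.Agent.H61.NC

/-- The endpoints of `e` are joined by an open path in `S` which does not use `e`. -/
def Dn (S : Set Vert) (e : Edge) : Set Config := {ω | Conn (close e ω) S (src e) (tgt e)}

/-- The probability that the endpoints of the edge between `(0, 0)` and `(1, 0)` are joined by an
open path in the plane which does not use this edge. -/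
noncomputable def tau (p : I) : ℝ := Pr p (Dn Set.univ (0, 0, false))

/-- `tau` as a function on the real line (`0` outside the unit interval). -/
noncomputable def tauR (x : ℝ) : ℝ := by
  classical exact if h : x ∈ I then tau ⟨x, h⟩ else 0

/-- The same event on the torus (in the periodic extension the first endpoint is joined to a
translate of the second one; the edge in the middle of the torus and all its translates are
closed). -/
def DT (N : ℕ) (d : Bool) : Set Config :=
  {ω | ∃ a b : ℤ, Conn (per N (close (ctr N d) ω)) Set.univ (src (ctr N d))
    ((tgt (ctr N d)).1 + a * N, (tgt (ctr N d)).2 + b * N)}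

/-- The probability of `DT`. -/
noncomputable def tauT (N : ℕ) (q : I) : ℝ := Pr q (DT N false)

end Pool.Agent.H31.AL
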