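import Mathlib

/-!
# Analysis: differentiability from approximations at all scales
-/

open Filter Topology

namespace Pool.Agent.H31.AL

/-- First-order Taylor formula with a bound for the second derivative. -/
theorem taylor_one {F F' F'' : ℝ → ℝ} {x₀ r B : ℝ} (hB : 0 ≤ B)
    (hF : ∀ x, |x - x₀| ≤ r → HasDerivAt F (F' x) x)
    (hF' : ∀ x, |x - x₀| ≤ r → HasDerivAt F' (F'' x) x)
    (h : ∀ x, |x - x₀| ≤ r → |F'' x| ≤ B) {x : ℝ} (hx : |x - x₀| ≤ r) :
    |F x - F x₀ - F' x₀ * (x - x₀)| ≤ B * |x - x₀| ^ 2 := by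
  have hx0 : |x₀ - x₀| ≤ r := by rw [sub_self, abs_zero]; exact (abs_nonneg _).trans hx
  have hseg : ∀ z ∈ Metric.closedBall x₀ |x - x₀|, |z - x₀| ≤ r := by
    intro z hz
    rw [Metric.mem_closedBall, Real.dist_eq] at hz
    exact hz.trans hx
  have hx0m : x₀ ∈ Metric.closedBall x₀ |x - x₀| := by
    rw [Metric.mem_closedBall, dist_self]; exact abs_nonneg _
  have hxm : x ∈ Metric.closedBall x₀ |x - x₀| := by
    rw [Metric.mem_closedBall, Real.dist_eq]
  have h1 : ∀ z ∈ Metric.closedBall x₀ |x - x₀|, |F' z - F' x₀| ≤ B * |x - x₀| := by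
    intro z hz
    have h2 := (convex_closedBall x₀ |x - x₀|).norm_image_sub_le_of_norm_hasDerivWithin_le
      (f := F') (f' := F'') (C := B)
      (fun w hw => (hF' w (hseg w hw)).hasDerivWithinAt) (fun w hw => h w (hseg w hw)) hx0m hz
    rw [Real.norm_eq_abs, Real.norm_eq_abs] at h2
    refine h2.trans (mul_le_mul_of_nonneg_left ?_ hB)
    rw [Metric.mem_closedBall, Real.dist_eq] at hz
    exact hz
  have h3 := (convex_closedBall x₀ |x - x₀|).norm_image_sub_le_of_norm_hasDerivWithin_le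
      (f := fun z => F z - F' x₀ * (z - x₀)) (f' := fun z => F' z - F' x₀) (C := B * |x - x₀|)
      (fun w hw => by
        have h4 : HasDerivAt (fun z => F' x₀ * (z - x₀)) (F' x₀) w := by
          have := ((hasDerivAt_id w).sub_const x₀).const_mul (F' x₀)
          simpa using this
        exact ((hF w (hseg w hw)).sub h4).hasDerivWithinAt) (fun w hw => h1 w hw) hx0m hxm
  rw [Real.norm_eq_abs, Real.norm_eq_abs] at h3
  have e1 : F x - F' x₀ * (x - x₀) - (F x₀ - F' x₀ * (x₀ - x₀)) =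
      F x - F x₀ - F' x₀ * (x - x₀) := by ring
  rw [e1] at h3
  refine h3.trans (le_of_eq ?_)
  ring

/-- If at all dyadic scales `2 ^ k` the function `f` is linear up to an error `2 ^ (-u k)` on the
window of width `2 ^ (-w k)`, and `u > w`, then `f` is differentiable at `0` with an error of order
`|t| ^ (u / w)`. -/
theorem dyadic {f : ℝ → ℝ} (hf0 : f 0 = 0) {c C u w : ℝ} {k₀ : ℕ} (hc : 0 < c) (hC : 0 < C)
    (hw : 0 < w) (hwu : w < u) {b : ℕ → ℝ}
    (h : ∀ k, k₀ ≤ k → ∀ t : ℝ, |t| ≤ c * (2 : ℝ) ^ (-(w * k)) →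
      |f t - b k * t| ≤ C * (2 : ℝ) ^ (-(u * k))) :
    ∃ β C' δ : ℝ, 0 < C' ∧ 0 < δ ∧ ∀ t : ℝ, |t| ≤ δ → |f t - β * t| ≤ C' * |t| ^ (u / w) := by
  have h2 : (0 : ℝ) < 2 := by norm_num
  set ρ : ℝ := (2 : ℝ) ^ (-(u - w)) with hρ
  have hρ0 : 0 < ρ := Real.rpow_pos_of_pos h2 _
  have hρ1 : ρ < 1 := Real.rpow_lt_one_of_one_lt_of_neg (by norm_num) (by linarith)
  have hρk : ∀ k : ℕ, ρ ^ k = (2 : ℝ) ^ (-((u - w) * k)) := by
    intro k
    rw [hρ, ← Real.rpow_natCast, ← Real.rpow_mul h2.le]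
    congr 1
    ring
  set D : ℝ := 2 * C * 2 ^ w / c with hD
  have h2w : (0 : ℝ) < 2 ^ w := Real.rpow_pos_of_pos h2 _
  have hD0 : 0 < D := by positivity
  -- the slopes
  have hslope : ∀ n : ℕ, dist (b (k₀ + n)) (b (k₀ + (n + 1))) ≤ D * ρ ^ k₀ * ρ ^ n := by
    intro n
    set k := k₀ + n with hk
    have hk1 : k₀ + (n + 1) = k + 1 := by rw [hk]; ring
    rw [hk1]
    set t : ℝ := c * (2 : ℝ) ^ (-(w * ((k + 1 : ℕ) : ℝ))) with ht
    have ht0 : 0 < t := by
      rw [ht]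
      exact mul_pos hc (Real.rpow_pos_of_pos h2 _)
    have e1 := h (k + 1) (by omega) t (by rw [abs_of_pos ht0])
    have e2 := h k (by omega) t (by
      rw [abs_of_pos ht0, ht]
      refine mul_le_mul_of_nonneg_left ?_ hc.le
      refine Real.rpow_le_rpow_of_exponent_le (by norm_num) ?_
      push_cast
      nlinarith)
    have e3 : (2 : ℝ) ^ (-(u * ((k + 1 : ℕ) : ℝ))) ≤ (2 : ℝ) ^ (-(u * k)) := by
      refine Real.rpow_le_rpow_of_exponent_le (by norm_num) ?_
      push_cast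
      nlinarith
    have e4 : |b k - b (k + 1)| * t ≤ 2 * C * (2 : ℝ) ^ (-(u * k)) := by
      have e5 : (b k - b (k + 1)) * t = (f t - b (k + 1) * t) - (f t - b k * t) := by ring
      rw [← abs_of_pos ht0, ← abs_mul, e5]
      refine (abs_sub _ _).trans ?_
      have e6 : C * (2 : ℝ) ^ (-(u * ((k + 1 : ℕ) : ℝ))) ≤ C * (2 : ℝ) ^ (-(u * k)) :=
        mul_le_mul_of_nonneg_left e3 hC.le
      linarith
    have e7 : ρ ^ k₀ * ρ ^ n = (2 : ℝ) ^ (-((u - w) * k)) := by
      rw [← pow_add, ← hk, hρk]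
    rw [Real.dist_eq, mul_assoc, e7]
    have e8 : |b k - b (k + 1)| ≤ 2 * C * (2 : ℝ) ^ (-(u * k)) / t := by
      rw [le_div_iff₀ ht0]
      exact e4
    refine e8.trans (le_of_eq ?_)
    rw [hD, ht]
    have e9 : (2 : ℝ) ^ (-((u - w) * k)) = (2 : ℝ) ^ (-(u * k)) * 2 ^ (w * k) := by
      rw [← Real.rpow_add h2]
      congr 1
      ring
    have e10 : (2 : ℝ) ^ (-(w * ((k + 1 : ℕ) : ℝ))) = (2 ^ w * 2 ^ (w * k))⁻¹ := by
      rw [← Real.rpow_add h2, ← Real.rpow_neg h2.le]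
      congr 1
      push_cast
      ring
    rw [e9, e10]
    have h2k : (0 : ℝ) < 2 ^ (w * (k : ℝ)) := Real.rpow_pos_of_pos h2 _
    field_simp
  have hcauchy := cauchySeq_of_le_geometric ρ (D * ρ ^ k₀) hρ1 hslope
  obtain ⟨β, hβ⟩ := cauchySeq_tendsto_of_complete hcauchy
  have hdist := dist_le_of_le_geometric_of_tendsto ρ (D * ρ ^ k₀) hρ1 hslope hβ
  set E : ℝ := D / (1 - ρ) with hE
  have h1ρ : 0 < 1 - ρ := by linarith
  have hE0 : 0 < E := by positivity
  have hbβ : ∀ k, k₀ ≤ k → |b k - β| ≤ E * (2 : ℝ) ^ (-((u - w) * k)) := by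
    intro k hk
    obtain ⟨n, rfl⟩ := Nat.exists_eq_add_of_le hk
    have := hdist n
    rw [Real.dist_eq] at this
    refine this.trans (le_of_eq ?_)
    rw [hE, ← hρk, pow_add]
    field_simp
  refine ⟨β, (C + E * c) * (2 : ℝ) ^ u / c ^ (u / w), c * (2 : ℝ) ^ (-(w * k₀)), ?_, ?_, ?_⟩
  · have : (0 : ℝ) < (2 : ℝ) ^ u := Real.rpow_pos_of_pos h2 _
    have : (0 : ℝ) < c ^ (u / w) := Real.rpow_pos_of_pos hc _
    positivity
  · exact mul_pos hc (Real.rpow_pos_of_pos h2 _)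
  · intro t ht
    rcases eq_or_ne t 0 with rfl | hne
    · rw [hf0, mul_zero, sub_zero, abs_zero, Real.zero_rpow, mul_zero]
      have : 0 < u / w := div_pos (by linarith) hw
      exact this.ne'
    have ht0 : 0 < |t| := abs_pos.2 hne
    -- choose the scale
    have hex : ∃ k, k₀ ≤ k ∧ |t| ≤ c * (2 : ℝ) ^ (-(w * k)) ∧
        c * (2 : ℝ) ^ (-(w * ((k + 1 : ℕ) : ℝ))) < |t| := by
      by_contra hcon
      push Not at hcon
      have hall : ∀ n : ℕ, |t| ≤ c * (2 : ℝ) ^ (-(w * ((k₀ + n : ℕ) : ℝ))) := by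
        intro n
        induction n with
        | zero => simpa using ht
        | succ n ih => exact hcon (k₀ + n) (by omega) ih
      have hlim : Tendsto (fun n : ℕ => c * (2 : ℝ) ^ (-(w * ((k₀ + n : ℕ) : ℝ)))) atTop
          (𝓝 (c * 0)) := by
        refine Tendsto.const_mul c ?_
        have hr : (2 : ℝ) ^ (-w) < 1 :=
          Real.rpow_lt_one_of_one_lt_of_neg (by norm_num) (by linarith)
        have h3 := (tendsto_pow_atTop_nhds_zero_of_lt_one
          (Real.rpow_pos_of_pos h2 (-w)).le hr).comp (tendsto_add_atTop_nat k₀)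
        refine h3.congr fun n => ?_
        simp only [Function.comp]
        rw [← Real.rpow_natCast, ← Real.rpow_mul h2.le]
        congr 1
        push_cast
        ring
      rw [mul_zero] at hlim
      have := ge_of_tendsto' hlim hall
      linarith
    obtain ⟨k, hk, hk1, hk2⟩ := hex
    have e1 := h k hk t hk1
    have e2 := hbβ k hk
    have e3 : |f t - β * t| ≤ (C + E * c) * (2 : ℝ) ^ (-(u * k)) := by
      have e4 : f t - β * t = (f t - b k * t) + (b k - β) * t := by ring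
      rw [e4]
      refine (abs_add_le _ _).trans ?_
      rw [abs_mul]
      have e5 : |b k - β| * |t| ≤ E * (2 : ℝ) ^ (-((u - w) * k)) * (c * (2 : ℝ) ^ (-(w * k))) :=
        mul_le_mul e2 hk1 (abs_nonneg _) (by
          have := Real.rpow_pos_of_pos h2 (-((u - w) * k))
          positivity)
      have e6 : E * (2 : ℝ) ^ (-((u - w) * k)) * (c * (2 : ℝ) ^ (-(w * k))) =
          E * c * (2 : ℝ) ^ (-(u * k)) := by
        have : (2 : ℝ) ^ (-(u * k)) = (2 : ℝ) ^ (-((u - w) * k)) * (2 : ℝ) ^ (-(w * k)) := by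
          rw [← Real.rpow_add h2]
          congr 1
          ring
        rw [this]
        ring
      rw [e6] at e5
      linarith
    refine e3.trans ?_
    have e7 : (2 : ℝ) ^ (-(u * k)) ≤ (2 : ℝ) ^ u / c ^ (u / w) * |t| ^ (u / w) := by
      have e8 : (c * (2 : ℝ) ^ (-(w * ((k + 1 : ℕ) : ℝ)))) ^ (u / w) ≤ |t| ^ (u / w) :=
        Real.rpow_le_rpow (mul_pos hc (Real.rpow_pos_of_pos h2 _)).le hk2.le
          (div_pos (by linarith) hw).le
      have e9 : (c * (2 : ℝ) ^ (-(w * ((k + 1 : ℕ) : ℝ)))) ^ (u / w) =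
          c ^ (u / w) * (2 : ℝ) ^ (-(u * ((k + 1 : ℕ) : ℝ))) := by
        rw [Real.mul_rpow hc.le (Real.rpow_pos_of_pos h2 _).le, ← Real.rpow_mul h2.le]
        congr 2
        field_simp
      rw [e9] at e8
      have hcu : (0 : ℝ) < c ^ (u / w) := Real.rpow_pos_of_pos hc _
      rw [div_mul_eq_mul_div, le_div_iff₀ hcu]
      have e10 : (2 : ℝ) ^ (-(u * k)) = 2 ^ u * (2 : ℝ) ^ (-(u * ((k + 1 : ℕ) : ℝ))) := by
        rw [← Real.rpow_add h2]
        congr 1
        push_cast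
        ring
      rw [e10]
      have h2u : (0 : ℝ) < (2 : ℝ) ^ u := Real.rpow_pos_of_pos h2 _
      calc 2 ^ u * (2 : ℝ) ^ (-(u * ((k + 1 : ℕ) : ℝ))) * c ^ (u / w)
          = 2 ^ u * (c ^ (u / w) * (2 : ℝ) ^ (-(u * ((k + 1 : ℕ) : ℝ)))) := by ring
        _ ≤ 2 ^ u * |t| ^ (u / w) := mul_le_mul_of_nonneg_left e8 h2u.le
    calc (C + E * c) * (2 : ℝ) ^ (-(u * k))
        ≤ (C + E * c) * ((2 : ℝ) ^ u / c ^ (u / w) * |t| ^ (u / w)) :=
          mul_le_mul_of_nonneg_left e7 (by positivity)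
      _ = _ := by ring

end Pool.Agent.H31.AL
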