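import Pool.Agent.H31.AL.Defs
import Pool.Agent.H29.Kap.Main

/-!
# The derivative of the cluster density
-/

open MeasureTheory ProbabilityTheory unitInterval Filter Topology

namespace Pool.Agent.H31.AL

open Pool.Agent.H89.Perc Pool.Agent.H61.NC

/-- The finite volume version of `tau`. -/
noncomputable def tl (m : ℕ) (p : I) : ℝ := Pr p (Dn (ball 0 m) (0, 0, false))

theorem close_mono {e : Edge} {ω ω' : Config} (h : ∀ f, ω f = true → ω' f = true) :
    ∀ f, close e ω f = true → close e ω' f = true := by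
  intro f hf
  by_cases hfe : f = e
  · subst hfe
    unfold close at hf
    rw [Function.update_self] at hf
    exact absurd hf (by decide)
  · unfold close at hf ⊢
    rw [Function.update_of_ne hfe] at hf ⊢
    exact h f hf

theorem close_congr {e f : Edge} {ω ω' : Config} (h : ω f = ω' f) :
    close e ω f = close e ω' f := by
  by_cases hfe : f = e
  · subst hfe
    unfold close
    rw [Function.update_self, Function.update_self]
  · unfold close
    rw [Function.update_of_ne hfe, Function.update_of_ne hfe, h]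

theorem localOn_Dn {s : Finset Edge} {S : Set Vert} (e : Edge)
    (h : ∀ f, src f ∈ S → tgt f ∈ S → f ∈ s) : LocalOn s (Dn S e) := by
  intro ω ω' h1 hc
  exact Conn.congr (fun f h2 h3 => close_congr (h1 f (h f h2 h3))) hc

theorem incr_Dn (S : Set Vert) (e : Edge) : Incr (Dn S e) :=
  fun _ _ h hc => Conn.mono le_rfl (close_mono h) hc

theorem Dn_mono {S T : Set Vert} (h : S ⊆ T) (e : Edge) : Dn S e ⊆ Dn T e :=
  fun _ hc => Conn.mono_set h hc

theorem localOn_Dn_ball (v : Vert) (m : ℕ) (e : Edge) :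
    LocalOn (eRect (v.1 - m) (v.1 + m) (v.2 - m) (v.2 + m)) (Dn (ball v m) e) :=
  localOn_Dn e fun _ h _ => mem_eRect.2 h

theorem kd_shift (v : Vert) (d : Bool) (r : ℕ) :
    {ω : Config | (fun f => ω (shiftE v f)) ∈ Dn (ball 0 r) (0, 0, d)} =
      Dn (ball v r) (v.1, v.2, d) := by
  have hcl : ∀ ω : Config, close (0, 0, d) (fun f => ω (shiftE v f)) =
      fun f => close (v.1, v.2, d) ω (shiftE v f) := by
    intro ω
    funext f
    by_cases hf : f = (0, 0, d)
    · subst hf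
      have : shiftE v (0, 0, d) = (v.1, v.2, d) := by simp [shiftE]
      rw [this]
      unfold close
      rw [Function.update_self, Function.update_self]
    · have : shiftE v f ≠ (v.1, v.2, d) := by
        intro h
        apply hf
        apply shiftE_injective v
        rw [h]
        simp [shiftE]
      unfold close
      rw [Function.update_of_ne hf, Function.update_of_ne this]
  have hb : {w : Vert | (w.1 - v.1, w.2 - v.2) ∈ ball 0 r} = ball v r := by
    ext w
    simp only [Set.mem_ofPred_eq, mem_ball, Prod.fst_zero, Prod.snd_zero]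
    omega
  have hs : (((src ((0 : ℤ), (0 : ℤ), d)).1 + v.1, (src ((0 : ℤ), (0 : ℤ), d)).2 + v.2) : Vert) =
      src (v.1, v.2, d) := by simp [src]
  have ht : (((tgt ((0 : ℤ), (0 : ℤ), d)).1 + v.1, (tgt ((0 : ℤ), (0 : ℤ), d)).2 + v.2) : Vert) =
      tgt (v.1, v.2, d) := by
    cases d <;> simp [tgt, add_comm]
  ext ω
  simp only [Dn, Set.mem_ofPred_eq]
  rw [hcl, conn_shift, hb, hs, ht]

theorem kd_swap (r : ℕ) :
    {ω : Config | (fun f => ω (swapE f)) ∈ Dn (ball 0 r) (0, 0, true)} =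
      Dn (ball 0 r) (0, 0, false) := by
  have hcl : ∀ ω : Config, close (0, 0, true) (fun f => ω (swapE f)) =
      fun f => close (0, 0, false) ω (swapE f) := by
    intro ω
    funext f
    by_cases hf : f = (0, 0, true)
    · subst hf
      have : swapE (0, 0, true) = (0, 0, false) := by simp [swapE]
      rw [this]
      unfold close
      rw [Function.update_self, Function.update_self]
    · have : swapE f ≠ (0, 0, false) := by
        intro h
        apply hf
        apply swapE_injective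
        rw [h]
        simp [swapE]
      unfold close
      rw [Function.update_of_ne hf, Function.update_of_ne this]
  have hb : {w : Vert | (w.2, w.1) ∈ ball 0 r} = ball 0 r := by
    ext w
    simp only [Set.mem_ofPred_eq, mem_ball, Prod.fst_zero, Prod.snd_zero]
    omega
  have hs : (((src ((0 : ℤ), (0 : ℤ), true)).2, (src ((0 : ℤ), (0 : ℤ), true)).1) : Vert) =
      src (0, 0, false) := by simp [src]
  have ht : (((tgt ((0 : ℤ), (0 : ℤ), true)).2, (tgt ((0 : ℤ), (0 : ℤ), true)).1) : Vert) =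
      tgt (0, 0, false) := by
    simp [tgt]
  ext ω
  simp only [Dn, Set.mem_ofPred_eq]
  rw [hcl, conn_swap, hb, hs, ht]

theorem Pr_Dn_ball (q : I) (e : Edge) (m : ℕ) : Pr q (Dn (ball (src e) m) e) = tl m q := by
  obtain ⟨x, y, d⟩ := e
  have h1 : Pr q (Dn (ball (x, y) m) (x, y, d)) = Pr q (Dn (ball 0 m) (0, 0, d)) := by
    have := kd_shift (x, y) d m
    simp only at this
    rw [← this, Pr_comp (localOn_Dn_ball 0 m (0, 0, d)) (shiftE_injective (x, y)).injOn]
  rw [show src (x, y, d) = (x, y) from rfl, h1, tl]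
  cases d
  · rfl
  · rw [← kd_swap m, Pr_comp (localOn_Dn_ball 0 m (0, 0, true)) swapE_injective.injOn]

theorem kd_conn {ω : Config} {u v : Vert} (z : Vert) (h : Conn ω Set.univ u v) :
    ∃ m : ℕ, Conn ω (ball z m) u v := by
  refine h.induction_right (P := fun w => ∃ m : ℕ, Conn ω (ball z m) u w) ?_ ?_
  · refine ⟨(u.1 - z.1).natAbs + (u.2 - z.2).natAbs, Conn.refl ?_⟩
    rw [mem_ball]
    omega
  · rintro a b _ hs ⟨m, hm⟩
    have hb : ball z m ⊆ ball z (m + 1) := by
      intro w hw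
      rw [mem_ball] at hw ⊢
      omega
    have ha := hm.mem_right
    have h1 := hs.fst_le
    have h2 := hs.symm.fst_le
    have h3 := hs.snd_le
    obtain ⟨-, -, f, hf, ho⟩ := hs
    refine ⟨m + 1, (hm.mono_set hb).tail ⟨hb ha, ?_, f, hf, ho⟩⟩
    rw [mem_ball] at ha ⊢
    omega

theorem Dn_univ_eq (e : Edge) : Dn Set.univ e = ⋃ m : ℕ, Dn (ball (src e) m) e := by
  ext ω
  rw [Set.mem_iUnion]
  constructor
  · exact fun h => kd_conn (src e) h
  · rintro ⟨m, hm⟩
    exact hm.mono_set (Set.subset_univ _)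

theorem Dn_univ_tendsto (q : I) (e : Edge) :
    Tendsto (fun m => tl m q) atTop (𝓝 (Pr q (Dn Set.univ e))) := by
  have hm : Monotone (fun m : ℕ => Dn (ball (src e) m) e) := by
    intro a b hab
    refine Dn_mono ?_ e
    intro w hw
    rw [mem_ball] at hw ⊢
    omega
  have h := tendsto_measure_iUnion_atTop (μ := μ q) hm
  rw [← Dn_univ_eq] at h
  have h2 := (ENNReal.tendsto_toReal (measure_ne_top (μ q) (Dn Set.univ e))).comp h
  refine h2.congr fun m => ?_
  rw [← Pr_Dn_ball q e m]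
  rfl

theorem Pr_Dn_univ (q : I) (e : Edge) : Pr q (Dn Set.univ e) = tau q :=
  tendsto_nhds_unique (Dn_univ_tendsto q e) (Dn_univ_tendsto q (0, 0, false))

theorem tl_tendsto (q : I) : Tendsto (fun m => tl m q) atTop (𝓝 (tau q)) :=
  Dn_univ_tendsto q (0, 0, false)

theorem tl_le_tau (m : ℕ) (q : I) : tl m q ≤ tau q := Pr_mono (Dn_mono (Set.subset_univ _) _)

theorem tau_nonneg (q : I) : 0 ≤ tau q := Pr_nonneg

theorem tau_le_one (q : I) : tau q ≤ 1 := Pr_le_one

theorem tau_mono {p q : I} (h : p ≤ q) : tau p ≤ tau q :=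
  le_of_tendsto_of_tendsto' (tl_tendsto p) (tl_tendsto q) fun m =>
    Pr_mono_param (localOn_Dn_ball 0 m _) (incr_Dn _ _) h

/-- The event for an edge and a set which contains a ball around the edge. -/
theorem tl_le_Pr_Dn (q : I) (e : Edge) {m : ℕ} {S : Set Vert} (hS : ball (src e) m ⊆ S) :
    tl m q ≤ Pr q (Dn S e) := by
  rw [← Pr_Dn_ball q e m]
  exact Pr_mono (Dn_mono hS e)

theorem Pr_Dn_le_tau (q : I) (e : Edge) (S : Set Vert) : Pr q (Dn S e) ≤ tau q := by
  rw [← Pr_Dn_univ q e]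
  exact Pr_mono (Dn_mono (Set.subset_univ _) e)

/-! ### The derivative of the number of clusters -/

open Pool.Agent.H29.Kap

theorem EK_hasDerivAt (a b c d : ℤ) (q : I) :
    HasDerivAt (fun p => EK p a b c d)
      (-∑ e ∈ redges a b c d, (1 - Pr q (Dn (rect a b c d) e))) q := by
  unfold EK
  refine (Pool.Agent.Perc.hasDerivAt_Ex (redges a b c d) _ (q : ℝ)).congr_deriv ?_
  rw [← Finset.sum_neg_distrib]
  refine Finset.sum_congr rfl fun e he => ?_
  have hl : LocalOn (redges a b c d) (Dn (rect a b c d) e) :=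
    localOn_Dn e fun f h1 h2 => mem_redges.2 ⟨h1, h2⟩
  rw [Pr_eq_Ex hl]
  obtain ⟨hs, ht⟩ := mem_redges.1 he
  have key : ∀ S, S ⊆ redges a b c d →
      Pool.Agent.Perc.DD e (fun S => (K (ofS S) (rect a b c d) : ℝ)) S =
        (-1) * (1 - Pool.Agent.Perc.ind (fun S => ofS S ∈ Dn (rect a b c d) e) S) := by
    intro S _
    obtain ⟨k1, k2⟩ := K_update (ω := ofS S) (rect_finite a b c d) hs ht
    obtain ⟨u1, u2⟩ := ofS_update S e
    unfold Pool.Agent.Perc.DD
    beta_reduce
    rw [← u1, ← u2]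
    by_cases h : Conn (Function.update (ofS S) e false) (rect a b c d) (src e) (tgt e)
    · rw [Pool.Agent.Perc.ind_of (A := fun S => ofS S ∈ Dn (rect a b c d) e) h, k1 h]
      ring
    · rw [Pool.Agent.Perc.ind_of_not (A := fun S => ofS S ∈ Dn (rect a b c d) e) h, k2 h]
      push_cast
      ring
  rw [Pool.Agent.Perc.Ex_congr key, Pool.Agent.Perc.Ex_const_mul, Pool.Agent.Perc.Ex_sub,
    Pool.Agent.Perc.Ex_const]
  ring

theorem kd_card (n : ℕ) : ((redges 0 ((n : ℤ) + 1 - 1) 0 ((n : ℤ) + 1 - 1)).card : ℝ) =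
    2 * n * (n + 1) := by
  unfold redges
  rw [Finset.card_union_of_disjoint]
  · simp only [Finset.card_product, Int.card_Icc, Finset.card_singleton]
    have e1 : ((n : ℤ) + 1 - 1 - 1 + 1 - 0).toNat = n := by omega
    have e2 : ((n : ℤ) + 1 - 1 + 1 - 0).toNat = n + 1 := by omega
    rw [e1, e2]
    push_cast
    ring
  · rw [Finset.disjoint_left]
    intro e h1 h2
    simp only [Finset.mem_product, Finset.mem_singleton] at h1 h2
    rw [h1.2.2] at h2
    exact absurd h2.2.2 (by decide)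

theorem EK_diff (a b c d : ℤ) {x y : I} (hxy : x ≤ y) :
    -(∑ e ∈ redges a b c d, (1 - Pr x (Dn (rect a b c d) e))) * ((y : ℝ) - x) ≤
        EK y a b c d - EK x a b c d ∧
      EK y a b c d - EK x a b c d ≤
        -(∑ e ∈ redges a b c d, (1 - Pr y (Dn (rect a b c d) e))) * ((y : ℝ) - x) := by
  have hxy' : (x : ℝ) ≤ y := hxy
  have hd : ∀ z ∈ Set.Icc (x : ℝ) y, ∃ q : I, (q : ℝ) = z ∧ x ≤ q ∧ q ≤ y ∧
      HasDerivAt (fun p => EK p a b c d)
        (-∑ e ∈ redges a b c d, (1 - Pr q (Dn (rect a b c d) e))) z := by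
    intro z hz
    refine ⟨⟨z, x.2.1.trans hz.1, hz.2.trans y.2.2⟩, rfl, hz.1, hz.2, ?_⟩
    exact EK_hasDerivAt a b c d ⟨z, x.2.1.trans hz.1, hz.2.trans y.2.2⟩
  have hl : ∀ e ∈ redges a b c d, LocalOn (redges a b c d) (Dn (rect a b c d) e) :=
    fun e _ => localOn_Dn e fun f h1 h2 => mem_redges.2 ⟨h1, h2⟩
  have hcont : ContinuousOn (fun p => EK p a b c d) (Set.Icc (x : ℝ) y) := by
    intro z hz
    obtain ⟨q, _, _, _, h⟩ := hd z hz
    exact h.continuousAt.continuousWithinAt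
  have hdiff : DifferentiableOn ℝ (fun p => EK p a b c d) (interior (Set.Icc (x : ℝ) y)) := by
    intro z hz
    obtain ⟨q, _, _, _, h⟩ := hd z (interior_subset hz)
    exact h.differentiableAt.differentiableWithinAt
  constructor
  · refine Convex.mul_sub_le_image_sub_of_le_deriv (convex_Icc (x : ℝ) y) hcont hdiff ?_ x
      ⟨le_rfl, hxy'⟩ y ⟨hxy', le_rfl⟩ hxy'
    intro z hz
    obtain ⟨q, _, h1, _, h⟩ := hd z (interior_subset hz)
    rw [h.deriv, neg_le_neg_iff]
    refine Finset.sum_le_sum fun e he => ?_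
    have := Pr_mono_param (hl e he) (incr_Dn _ _) h1
    linarith
  · refine Convex.image_sub_le_mul_sub_of_deriv_le (convex_Icc (x : ℝ) y) hcont hdiff ?_ x
      ⟨le_rfl, hxy'⟩ y ⟨hxy', le_rfl⟩ hxy'
    intro z hz
    obtain ⟨q, _, _, h1, h⟩ := hd z (interior_subset hz)
    rw [h.deriv, neg_le_neg_iff]
    refine Finset.sum_le_sum fun e he => ?_
    have := Pr_mono_param (hl e he) (incr_Dn _ _) h1
    linarith

theorem kd_sum_upper (q : I) (n : ℕ) :
    ∑ e ∈ redges 0 ((n : ℤ) + 1 - 1) 0 ((n : ℤ) + 1 - 1),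
      Pr q (Dn (rect 0 ((n : ℤ) + 1 - 1) 0 ((n : ℤ) + 1 - 1)) e) ≤ 2 * n * (n + 1) * tau q := by
  rw [← kd_card n, ← nsmul_eq_mul]
  exact Finset.sum_le_card_nsmul _ _ _ fun e _ => Pr_Dn_le_tau q e _

theorem kd_sum_lower (q : I) {n m : ℕ} (hm : 1 ≤ m) (hn : 2 * m ≤ n) :
    2 * ((n : ℝ) + 1 - 2 * m) ^ 2 * tl m q ≤
    ∑ e ∈ redges 0 ((n : ℤ) + 1 - 1) 0 ((n : ℤ) + 1 - 1),
      Pr q (Dn (rect 0 ((n : ℤ) + 1 - 1) 0 ((n : ℤ) + 1 - 1)) e) := by
  set F := eRect (m : ℤ) ((n : ℤ) - m) m ((n : ℤ) - m) with hF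
  have hsub : F ⊆ redges 0 ((n : ℤ) + 1 - 1) 0 ((n : ℤ) + 1 - 1) := by
    intro e he
    rw [hF, mem_eRect] at he
    rw [mem_redges]
    obtain ⟨x, y, d⟩ := e
    cases d
    · simp only [src, tgt, rect, Set.mem_ofPred_eq, Bool.false_eq_true, if_false] at he ⊢
      omega
    · simp only [src, tgt, rect, Set.mem_ofPred_eq, if_true] at he ⊢
      omega
  have hcard : (F.card : ℝ) = 2 * ((n : ℝ) + 1 - 2 * m) ^ 2 := by
    rw [hF, eRect, Finset.card_product, Finset.card_product, Int.card_Icc, Finset.card_univ,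
      Fintype.card_bool]
    have e1 : ((n : ℤ) - m + 1 - m).toNat = n + 1 - 2 * m := by omega
    rw [e1]
    push_cast [Nat.cast_sub (show 2 * m ≤ n + 1 by omega)]
    ring
  rw [← hcard, ← nsmul_eq_mul]
  refine (Finset.card_nsmul_le_sum F _ _ fun e he => ?_).trans
    (Finset.sum_le_sum_of_subset_of_nonneg hsub fun e _ _ => Pr_nonneg)
  refine tl_le_Pr_Dn q e ?_
  intro w hw
  rw [hF, mem_eRect] at he
  rw [mem_ball] at hw
  simp only [rect, Set.mem_ofPred_eq] at he ⊢
  omega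

/-- The increments of the cluster density. -/
theorem kap_diff {x y : I} (hxy : x ≤ y) :
    -(2 * (1 - tau x)) * ((y : ℝ) - x) ≤ kap y - kap x ∧
      kap y - kap x ≤ -(2 * (1 - tau y)) * ((y : ℝ) - x) := by
  have hxy' : (0 : ℝ) ≤ (y : ℝ) - x := sub_nonneg.2 hxy
  have hlim : Tendsto (fun n : ℕ => (EK y 0 ((n : ℤ) + 1 - 1) 0 ((n : ℤ) + 1 - 1) -
      EK x 0 ((n : ℤ) + 1 - 1) 0 ((n : ℤ) + 1 - 1)) / ((n : ℝ) + 1) ^ 2) atTop
      (𝓝 (kap y - kap x)) := by
    have h1 := ((kap_tendsto y.2.1 y.2.2).sub (kap_tendsto x.2.1 x.2.2)).comp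
      (tendsto_add_atTop_nat 1)
    refine h1.congr fun n => ?_
    simp only [Function.comp]
    push_cast
    rw [sub_div]
  have hinv : Tendsto (fun n : ℕ => 1 / ((n : ℝ) + 1)) atTop (𝓝 0) :=
    tendsto_one_div_add_atTop_nhds_zero_nat
  constructor
  · -- lower bound
    have hm : ∀ m : ℕ, 1 ≤ m → -(2 * (1 - tl m x)) * ((y : ℝ) - x) ≤ kap y - kap x := by
      intro m hm
      have hl : Tendsto (fun n : ℕ => -(2 - 2 * (1 - 2 * m * (1 / ((n : ℝ) + 1))) ^ 2 * tl m x) *
          ((y : ℝ) - x)) atTop (𝓝 (-(2 - 2 * (1 - 2 * m * 0) ^ 2 * tl m x) * ((y : ℝ) - x))) := by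
        refine Tendsto.mul_const _ (Tendsto.neg (Tendsto.const_sub _ ?_))
        exact (((((hinv.const_mul _).const_sub _).pow 2).const_mul 2).mul_const _)
      rw [mul_zero, sub_zero, one_pow, mul_one] at hl
      have e1 : -(2 - 2 * tl m x) = -(2 * (1 - tl m x)) := by ring
      rw [e1] at hl
      refine le_of_tendsto_of_tendsto hl hlim ?_
      filter_upwards [eventually_ge_atTop (2 * m)] with n hn
      rw [le_div_iff₀ (by positivity)]
      refine le_trans ?_ (EK_diff 0 ((n : ℤ) + 1 - 1) 0 ((n : ℤ) + 1 - 1) hxy).1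
      have h2 : -(2 - 2 * (1 - 2 * m * (1 / ((n : ℝ) + 1))) ^ 2 * tl m x) * ((y : ℝ) - x) *
          ((n : ℝ) + 1) ^ 2 =
          -(2 * ((n : ℝ) + 1) ^ 2 - 2 * ((n : ℝ) + 1 - 2 * m) ^ 2 * tl m x) * ((y : ℝ) - x) := by
        field_simp
      rw [h2]
      refine mul_le_mul_of_nonneg_right ?_ hxy'
      rw [neg_le_neg_iff, Finset.sum_sub_distrib, Finset.sum_const, nsmul_eq_mul, mul_one, kd_card]
      have h3 := kd_sum_lower x hm hn
      have h4 : 2 * (n : ℝ) * (n + 1) ≤ 2 * ((n : ℝ) + 1) ^ 2 := by nlinarith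
      linarith
    have hl : Tendsto (fun m : ℕ => -(2 * (1 - tl m x)) * ((y : ℝ) - x)) atTop
        (𝓝 (-(2 * (1 - tau x)) * ((y : ℝ) - x))) :=
      ((((tl_tendsto x).const_sub 1).const_mul 2).neg).mul_const _
    exact le_of_tendsto hl ((eventually_ge_atTop 1).mono fun m h => hm m h)
  · -- upper bound
    have hl : Tendsto (fun n : ℕ => -(2 * (1 - 1 / ((n : ℝ) + 1)) * (1 - tau y)) * ((y : ℝ) - x))
        atTop (𝓝 (-(2 * (1 - 0) * (1 - tau y)) * ((y : ℝ) - x))) :=
      (((((hinv.const_sub 1).const_mul 2).mul_const _).neg).mul_const _)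
    rw [sub_zero, mul_one] at hl
    refine le_of_tendsto_of_tendsto hlim hl ?_
    filter_upwards with n
    rw [div_le_iff₀ (by positivity)]
    refine (EK_diff 0 ((n : ℤ) + 1 - 1) 0 ((n : ℤ) + 1 - 1) hxy).2.trans ?_
    have h2 : -(2 * (1 - 1 / ((n : ℝ) + 1)) * (1 - tau y)) * ((y : ℝ) - x) * ((n : ℝ) + 1) ^ 2 =
        -(2 * (n : ℝ) * (n + 1) * (1 - tau y)) * ((y : ℝ) - x) := by
      field_simp
      ring
    rw [h2]
    refine mul_le_mul_of_nonneg_right ?_ hxy'
    rw [neg_le_neg_iff, Finset.sum_sub_distrib, Finset.sum_const, nsmul_eq_mul, mul_one, kd_card]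
    have h3 := kd_sum_upper y n
    linarith

/-- `κ' = -2 (1 - τ)`. -/
theorem kap_hasDerivAt {x : ℝ} (h1 : 1 / 4 < x) (h2 : x < 3 / 4) :
    HasDerivAt kap (-(2 * (1 - tauR x))) x := by
  have hx : x ∈ I := ⟨by linarith, by linarith⟩
  have htau : tauR x = tau ⟨x, hx⟩ := by unfold tauR; rw [dif_pos hx]
  have hd := (Pool.Agent.H29.Kap.main.2.1 x h1 h2).hasDerivAt
  have hs := hasDerivAt_iff_tendsto_slope.1 hd
  have hd' : deriv kap x = -(2 * (1 - tauR x)) := by
    apply le_antisymm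
    · have h3 : Tendsto (slope kap x) (𝓝[<] x) (𝓝 (deriv kap x)) :=
        hs.mono_left (nhdsWithin_mono _ fun y hy => ne_of_lt hy)
      refine le_of_tendsto h3 ?_
      filter_upwards [Ioo_mem_nhdsLT h1] with y hy
      have hy' : y ∈ I := ⟨by linarith [hy.1], by linarith [hy.2]⟩
      have := (kap_diff (x := ⟨y, hy'⟩) (y := ⟨x, hx⟩) (show y ≤ x from hy.2.le)).2
      rw [slope_comm, slope_def_field, div_le_iff₀ (sub_pos.2 hy.2), htau]
      exact this
    · have h3 : Tendsto (slope kap x) (𝓝[>] x) (𝓝 (deriv kap x)) :=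
        hs.mono_left (nhdsWithin_mono _ fun y hy => ne_of_gt hy)
      refine ge_of_tendsto h3 ?_
      filter_upwards [Ioo_mem_nhdsGT h2] with y hy
      have hy' : y ∈ I := ⟨by linarith [hy.1], by linarith [hy.2]⟩
      have := (kap_diff (x := ⟨x, hx⟩) (y := ⟨y, hy'⟩) (show x ≤ y from hy.1.le)).1
      rw [slope_def_field, le_div_iff₀ (sub_pos.2 hy.1), htau]
      exact this
  rw [← hd']
  exact hd

end Pool.Agent.H31.AL
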