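import Pool.Agent.H31.AL.Defs
import Pool.Agent.H90.AL.Est
import Pool.Agent.H90.AL.Sums

/-!
# Second derivative of the connection probability on the torus
-/

open MeasureTheory ProbabilityTheory unitInterval

namespace Pool.Agent.H31.AL

open Pool.Agent.H89.Perc Pool.Agent.H61.NC Pool.Agent.H29.Sep Pool.Agent.H90.AL

theorem localOn_DT {N : ℕ} (hN : 1 ≤ N) (d : Bool) : LocalOn (tEdges N) (DT N d) := by
  intro ω ω' h hω
  have e : cfg N d ω = cfg N d ω' := by
    funext g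
    rw [cfg_apply, cfg_apply, h _ (modE_mem hN g)]
  obtain ⟨a, b, hc⟩ := hω
  refine ⟨a, b, ?_⟩
  change Conn (cfg N d ω) _ _ _ at hc
  change Conn (cfg N d ω') _ _ _
  rw [← e]
  exact hc

theorem incr_DT (N : ℕ) (d : Bool) : Incr (DT N d) := by
  rintro ω ω' h ⟨a, b, hc⟩
  refine ⟨a, b, Conn.mono le_rfl (fun e he => ?_) hc⟩
  change cfg N d ω e = true at he
  change cfg N d ω' e = true
  rw [cfg_apply] at he ⊢
  split_ifs at he ⊢
  exact h _ he

/-- Connection inside a ball. -/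
def B0 (e : Edge) (r : ℕ) : Set Config :=
  {ω | Conn (close e ω) (ball (src e) r) (src e) (tgt e)}

theorem localOn_B0 (e : Edge) (r : ℕ) :
    LocalOn (eRect (e.1 - r) (e.1 + r) (e.2.1 - r) (e.2.1 + r)) (B0 e r) := by
  intro ω ω' h hc
  refine Conn.congr (fun f hf _ => ?_) hc
  have h1 := h f (mem_eRect.2 hf)
  unfold close
  by_cases hfe : f = e
  · subst hfe
    rw [Function.update_self, Function.update_self]
  · rw [Function.update_of_ne hfe, Function.update_of_ne hfe, h1]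

theorem Pr_B0 (q : I) (v : Vert) (d : Bool) (r : ℕ) :
    Pr q (B0 (v.1, v.2, d) r) = Pr q (B0 (0, 0, d) r) := by
  have hcl : ∀ ω : Config, close (0, 0, d) (fun f => ω (shiftE v f)) =
      fun f => close (v.1, v.2, d) ω (shiftE v f) := by
    intro ω
    funext f
    unfold close
    by_cases hf : f = (0, 0, d)
    · subst hf
      have : shiftE v (0, 0, d) = (v.1, v.2, d) := by simp [shiftE]
      rw [this, Function.update_self, Function.update_self]
    · have : shiftE v f ≠ (v.1, v.2, d) := by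
        intro h
        apply hf
        apply shiftE_injective v
        rw [h]
        simp [shiftE]
      rw [Function.update_of_ne hf, Function.update_of_ne this]
  have hb : {w : Vert | (w.1 - v.1, w.2 - v.2) ∈ ball (src (0, 0, d)) r} =
      ball (src (v.1, v.2, d)) r := by
    ext w
    simp only [Set.mem_ofPred_eq, mem_ball, src]
    omega
  have hs : (((src ((0 : ℤ), (0 : ℤ), d)).1 + v.1, (src ((0 : ℤ), (0 : ℤ), d)).2 + v.2) : Vert) =
      src (v.1, v.2, d) := by simp [src]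
  have ht : (((tgt ((0 : ℤ), (0 : ℤ), d)).1 + v.1, (tgt ((0 : ℤ), (0 : ℤ), d)).2 + v.2) : Vert) =
      tgt (v.1, v.2, d) := by
    cases d <;> simp [tgt, add_comm]
  have key : {ω : Config | (fun f => ω (shiftE v f)) ∈ B0 (0, 0, d) r} = B0 (v.1, v.2, d) r := by
    ext ω
    simp only [B0, Set.mem_ofPred_eq]
    rw [hcl, conn_shift, hb, hs, ht]
  rw [← key]
  exact Pr_comp (localOn_B0 (0, 0, d) r) (shiftE_injective v).injOn

/-- A connection between two vertices of a ball which is not realised inside the ball. -/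
lemma reach_sphere {ω : Config} {z : Vert} {r : ℕ} {u v : Vert} (h : Conn ω Set.univ u v)
    (hu : u ∈ ball z r) (hn : ¬ Conn ω (ball z r) u v) :
    ∃ x ∈ sphere z r, Conn ω (ball z r) u x := by
  obtain ⟨w, w', h1, h2, h3, -⟩ := h.exists_exit (T := {w | Conn ω (ball z r) u w})
    (Conn.refl hu) hn
  have h4 : Conn ω (ball z r) u w := h1.mem_right.2
  have h5 : w' ∉ ball z r := by
    intro h6
    apply h3
    obtain ⟨-, -, g, g1, g2⟩ := h2
    exact h4.tail ⟨h4.mem_right, h6, g, g1, g2⟩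
  have h6 : Conn ω Set.univ u w' := (h1.mono_set (Set.subset_univ _)).tail h2
  obtain ⟨x, hx, hc⟩ := h6.to_sphere hu (Or.inl h5)
  exact ⟨x, hx, hc.mono_set Set.inter_subset_right⟩

lemma tgt_mem_ball (e : Edge) {r : ℕ} (hr : 1 ≤ r) : tgt e ∈ ball (src e) r := by
  have h3 := abs_le.1 (tgt_near e).1
  have h4 := abs_le.1 (tgt_near e).2
  rw [mem_ball]
  omega

theorem Dn_sub (e : Edge) {r : ℕ} (hr : 1 ≤ r) : Dn Set.univ e ⊆ B0 e r ∪ A4 e r := by
  intro ω hω
  by_cases h0 : ω ∈ B0 e r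
  · exact Or.inl h0
  right
  refine ⟨reach_sphere hω self_mem_ball h0, ?_, h0⟩
  exact reach_sphere (Conn.symm hω) (tgt_mem_ball e hr) fun h => h0 h.symm

theorem B0_sub (e : Edge) (r : ℕ) : B0 e r ⊆ Dn Set.univ e :=
  fun _ h => h.mono_set (Set.subset_univ _)

lemma cfg_ball {N : ℕ} (hN : 1 ≤ N) (d : Bool) {r : ℕ} (hr : 2 * r < N) (ω : Config) (g : Edge)
    (hg : src g ∈ ball (src (ctr N d)) r) : cfg N d ω g = close (ctr N d) (per N ω) g := by
  rw [cfg_apply]
  unfold close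
  by_cases g2 : modE N g = ctr N d
  · rw [if_pos g2, modE_ball hN hr hg g2, Function.update_self]
  · rw [if_neg g2, Function.update_of_ne]
    · rfl
    · rintro rfl
      exact g2 (modE_eq (ctr_mem' hN d))

theorem B0T_sub {N r : ℕ} (d : Bool) (hN : 2 * r + 2 ≤ N) :
    {ω | per N ω ∈ B0 (ctr N d) r} ⊆ DT N d := by
  intro ω hω
  refine ⟨0, 0, ?_⟩
  change Conn (cfg N d ω) _ _ _
  simp only [zero_mul, add_zero]
  refine (Conn.congr (fun g g1 _ => ?_) hω).mono_set (Set.subset_univ _)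
  exact (cfg_ball (by omega) d (by omega) ω g g1).symm

theorem DT_sub {N r : ℕ} (d : Bool) (hr : 1 ≤ r) (hN : 2 * r + 2 ≤ N) :
    DT N d ⊆ {ω | per N ω ∈ B0 (ctr N d) r} ∪ A4T N (ctr N d) r := by
  intro ω hω
  by_cases h0 : per N ω ∈ B0 (ctr N d) r
  · exact Or.inl h0
  right
  have hN1 : 1 ≤ N := by omega
  obtain ⟨a, b, hc⟩ := hω
  change Conn (cfg N d ω) _ _ _ at hc
  have hcf := cfg_ball hN1 d (by omega : 2 * r < N) ω
  have h0' : ¬ Conn (cfg N d ω) (ball (src (ctr N d)) r) (src (ctr N d)) (tgt (ctr N d)) :=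
    fun h => h0 (Conn.congr (fun g g1 _ => hcf g g1) h)
  have hp := isPer_cfg N d ω
  have e1 : ((((tgt (ctr N d)).1 + a * N) + -a * N, ((tgt (ctr N d)).2 + b * N) + -b * N) : Vert) =
      tgt (ctr N d) := by
    ext <;> (simp only; ring)
  have hc2 := conn_per hp (-a) (-b) hc
  simp only at hc2
  rw [e1] at hc2
  have hout : a ≠ 0 ∨ b ≠ 0 → ((tgt (ctr N d)).1 + a * N, (tgt (ctr N d)).2 + b * N) ∉
      ball (src (ctr N d)) r ∧ ((src (ctr N d)).1 + -a * N, (src (ctr N d)).2 + -b * N) ∉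
      ball (src (ctr N d)) r := by
    intro hab
    have h3 := abs_le.1 (tgt_near (ctr N d)).1
    have h4 := abs_le.1 (tgt_near (ctr N d)).2
    have key : ∀ x : ℤ, x ≠ 0 → x * N ≤ -N ∨ N ≤ x * N := by
      intro x hx
      rcases lt_or_gt_of_ne hx with h | h
      · left
        have : x * N ≤ -1 * N := mul_le_mul_of_nonneg_right (by omega) (by omega)
        omega
      · right
        have : 1 * N ≤ x * N := mul_le_mul_of_nonneg_right (by omega) (by omega)
        omega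
    simp only [mem_ball, neg_mul]
    rcases hab with h | h
    · have := key _ h
      constructor <;> omega
    · have := key _ h
      constructor <;> omega
  have conv : ∀ p : Vert, (∃ x ∈ sphere (src (ctr N d)) r,
      Conn (cfg N d ω) (ball (src (ctr N d)) r) p x) → ∃ x ∈ sphere (src (ctr N d)) r,
      Conn (close (ctr N d) (per N ω)) (ball (src (ctr N d)) r) p x := by
    rintro p ⟨x, hx, hc⟩
    exact ⟨x, hx, Conn.congr (fun g g1 _ => hcf g g1) hc⟩
  refine ⟨conv _ ?_, conv _ ?_, h0⟩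
  · by_cases hab : a ≠ 0 ∨ b ≠ 0
    · obtain ⟨x, hx, hcx⟩ := hc.to_sphere self_mem_ball (Or.inl (hout hab).1)
      exact ⟨x, hx, hcx.mono_set Set.inter_subset_right⟩
    · push Not at hab
      rw [hab.1, hab.2] at hc
      simp only [zero_mul, add_zero] at hc
      exact reach_sphere hc self_mem_ball h0'
  · by_cases hab : a ≠ 0 ∨ b ≠ 0
    · obtain ⟨x, hx, hcx⟩ := hc2.symm.to_sphere (tgt_mem_ball _ hr) (Or.inl (hout hab).2)
      exact ⟨x, hx, hcx.mono_set Set.inter_subset_right⟩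
    · push Not at hab
      rw [hab.1, hab.2] at hc
      simp only [zero_mul, add_zero] at hc
      exact reach_sphere hc.symm (tgt_mem_ball _ hr) fun h => h0' h.symm

/-- Comparison with the plane. -/
theorem tauT_near (q : I) {N r : ℕ} (hr : 1 ≤ r) (hN : 2 * r + 2 ≤ N) :
    |tauT N q - tau q| ≤ a4 q r := by
  have hN1 : 1 ≤ N := by omega
  have e1 : Pr q {ω | per N ω ∈ B0 (ctr N false) r} = Pr q (B0 (0, 0, false) r) := by
    rw [Pr_per (localOn_B0 (ctr N false) r) (by omega) (by omega)]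
    exact Pr_B0 q (mid N, mid N) false r
  have h1 : Pr q {ω | per N ω ∈ B0 (ctr N false) r} ≤ tauT N q := Pr_mono (B0T_sub false hN)
  have h2 : tauT N q ≤ Pr q {ω | per N ω ∈ B0 (ctr N false) r} + a4 q r := by
    rw [← Pr_A4T q (ctr_mem' hN1 false) (by omega : 2 * r < N)]
    exact (Pr_mono (DT_sub false hr hN)).trans Pr_union_le
  have h3 : Pr q (B0 (0, 0, false) r) ≤ tau q := Pr_mono (B0_sub _ r)
  have h4 : tau q ≤ Pr q (B0 (0, 0, false) r) + a4 q r :=
    (Pr_mono (Dn_sub _ hr)).trans Pr_union_le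
  rw [abs_le]
  constructor <;> linarith

/-- The bound by a function of the two smallest distances. -/
lemma G_bound {C s p : ℝ} (hC : 0 < C) (hs : 0 ≤ s) {d₁ d₂ y : ℕ} (h1 : d₁ ≤ y) (h2 : y ≤ 2 * d₂)
    (h : p ≤ C * (((d₁ : ℝ) + 1) ^ (-s) * (((d₂ : ℝ) + 1) ^ (-s) * ((d₂ : ℝ) + 1) ^ (-s)))) :
    p ≤ C * ((2 : ℝ) ^ s * (2 : ℝ) ^ s) * G s d₁ y := by
  have h3 := pow_cmp hs (k := 2) (x := d₂ + 1) (y := y) (by omega) (by omega)
  push_cast at h3
  have h4 : ((d₂ : ℝ) + 1) ^ (-s) * ((d₂ : ℝ) + 1) ^ (-s) ≤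
      ((2 : ℝ) ^ s * ((y : ℝ) + 1) ^ (-s)) * ((2 : ℝ) ^ s * ((y : ℝ) + 1) ^ (-s)) :=
    mul_le_mul h3 h3 (by positivity) (by positivity)
  have h5 : ((d₁ : ℝ) + 1) ^ (-s) * (((d₂ : ℝ) + 1) ^ (-s) * ((d₂ : ℝ) + 1) ^ (-s)) ≤
      ((d₁ : ℝ) + 1) ^ (-s) *
        (((2 : ℝ) ^ s * ((y : ℝ) + 1) ^ (-s)) * ((2 : ℝ) ^ s * ((y : ℝ) + 1) ^ (-s))) :=
    mul_le_mul_of_nonneg_left h4 (by positivity)
  refine h.trans ((mul_le_mul_of_nonneg_left h5 hC.le).trans (le_of_eq ?_))
  unfold G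
  rw [if_pos h1]
  ring

/-- The sum of the joint influences. -/
theorem second_DT (hQM : QMann) : ∀ c A s : ℝ, 0 < c → 0 < A → 1 < s → s < 4 / 3 →
    ∃ C : ℝ, 0 < C ∧ ∀ (N : ℕ) (q : I), 1 ≤ N → 1 / 4 ≤ (q : ℝ) → (q : ℝ) ≤ 3 / 4 →
      RSWreg c (64 * N) q → (∀ t : ℕ, 1 ≤ t → t ≤ N → a4 q t ≤ A * (t : ℝ) ^ (-s)) →
      ∑ f ∈ tEdges N, ∑ g ∈ (tEdges N).erase f, Pr q (Joint (DT N false) f g) ≤
        C * (N : ℝ) ^ (4 - 3 * s) := by
  classical
  intro c A s hc hA hs1 hs2
  have hs0 : 0 < s := by linarith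
  obtain ⟨C, hC, hest⟩ := estimate hQM c A s hc hA hs0
  obtain ⟨K, hK⟩ : ∃ K : ℝ, K = C * ((2 : ℝ) ^ s * (2 : ℝ) ^ s) := ⟨_, rfl⟩
  have hK0 : 0 < K := by rw [hK]; positivity
  obtain ⟨M, hM⟩ : ∃ M : ℝ, M = 512 / ((2 - s) * (4 - 3 * s)) := ⟨_, rfl⟩
  have hM0 : 0 < M := by
    rw [hM]
    have : 0 < 2 - s := by linarith
    have : 0 < 4 - 3 * s := by linarith
    positivity
  refine ⟨K * (3 * M), by positivity, ?_⟩
  intro N q hN hq1 hq2 hR ha
  have hcm := ctr_mem' hN false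
  obtain ⟨e, he⟩ : ∃ e : Edge, e = ctr N false := ⟨_, rfl⟩
  have hi := incr_DT N false
  -- termwise
  have hterm : ∀ f ∈ tEdges N, ∀ g ∈ (tEdges N).erase f, Pr q (Joint (DT N false) f g) ≤
      K * (G s (dT N (src f) (src e)) (dT N (src g) (src e)) +
        G s (dT N (src g) (src e)) (dT N (src f) (src e)) +
        G s (dT N (src g) (src f)) (dT N (src f) (src e))) := by
    intro f hf g hg
    have hgm : g ∈ tEdges N := Finset.mem_of_mem_erase hg
    have hfg : f ≠ g := fun h => Finset.ne_of_mem_erase hg h.symm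
    obtain ⟨x, hx⟩ : ∃ x, x = dT N (src f) (src e) := ⟨_, rfl⟩
    obtain ⟨y, hy⟩ : ∃ y, y = dT N (src g) (src e) := ⟨_, rfl⟩
    obtain ⟨z, hz⟩ : ∃ z, z = dT N (src g) (src f) := ⟨_, rfl⟩
    have t1 := dT_tri hN (src f) (src g) (src e)
    have t2 := dT_tri hN (src g) (src f) (src e)
    have t3 := dT_tri hN (src g) (src e) (src f)
    have c1 := dT_comm hN (src f) (src g)
    have c2 := dT_comm hN (src e) (src f)
    have c3 := dT_comm hN (src e) (src g)
    have g1 := G_nonneg s x y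
    have g2 := G_nonneg s y x
    have g3 := G_nonneg s z x
    rw [← hx, ← hy, ← hz]
    rw [mul_add, mul_add]
    have k1 := mul_nonneg hK0.le g1
    have k2 := mul_nonneg hK0.le g2
    have k3 := mul_nonneg hK0.le g3
    have hcase : (x ≤ y ∧ x ≤ z) ∨ (y ≤ x ∧ y ≤ z) ∨ (z ≤ x ∧ z ≤ y) := by omega
    rcases hcase with ⟨m1, m2⟩ | ⟨m1, m2⟩ | ⟨m1, m2⟩
    · have h1 := hest N q (Joint (DT N false) f g) (ctr N false) f g x (min y z) hN hq1 hq2 hR ha
        hcm hf hgm (role_two hN hf hgm hfg hi) (by rw [← he]; omega) (by omega)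
        (by rw [← he]; omega) (by omega)
      have h2 := G_bound hC hs0.le (d₁ := x) (d₂ := min y z) (y := y) m1 (by omega) h1
      rw [← hK] at h2
      linarith
    · have h1 := hest N q (Joint (DT N false) f g) (ctr N false) g f y (min x z) hN hq1 hq2 hR ha
        hcm hgm hf (role_three hN hf hgm hfg hi) (by rw [← he]; omega) (by omega)
        (by rw [← he]; omega) (by omega)
      have h2 := G_bound hC hs0.le (d₁ := y) (d₂ := min x z) (y := x) m1 (by omega) h1
      rw [← hK] at h2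
      linarith
    · have h1 := hest N q (Joint (DT N false) f g) f g (ctr N false) z (min x y) hN hq1 hq2 hR ha
        hf hgm hcm (role_one hN hf hgm hfg hi) (by omega) (by omega)
        (by rw [← he]; omega) (by rw [← he]; omega)
      have h2 := G_bound hC hs0.le (d₁ := z) (d₂ := min x y) (y := x) m1 (by omega) h1
      rw [← hK] at h2
      linarith
  -- the three sums
  have hG := sum_G hs1 hs2 hN
  rw [← hM] at hG
  have hin : ∀ (c' : Vert) (y : ℕ), ∑ g ∈ tEdges N, G s (dT N (src g) c') y ≤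
      ∑ x ∈ Finset.range (N + 1), 16 * ((x : ℝ) + 1) * G s x y :=
    fun c' y => sum_by_dT hN c' (fun x => G s x y) fun x => G_nonneg s x y
  have hout : ∑ f ∈ tEdges N, ∑ x ∈ Finset.range (N + 1), 16 * ((x : ℝ) + 1) *
      G s x (dT N (src f) (src e)) ≤ M * (N : ℝ) ^ (4 - 3 * s) := by
    refine le_trans (sum_by_dT hN (src e)
      (fun y => ∑ x ∈ Finset.range (N + 1), 16 * ((x : ℝ) + 1) * G s x y) fun y => ?_) hG
    exact Finset.sum_nonneg fun x _ => mul_nonneg (by positivity) (G_nonneg s x y)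
  have s1 : ∑ f ∈ tEdges N, ∑ g ∈ tEdges N,
      G s (dT N (src f) (src e)) (dT N (src g) (src e)) ≤ M * (N : ℝ) ^ (4 - 3 * s) := by
    rw [Finset.sum_comm]
    exact (Finset.sum_le_sum fun g _ => hin (src e) _).trans hout
  have s2 : ∑ f ∈ tEdges N, ∑ g ∈ tEdges N,
      G s (dT N (src g) (src e)) (dT N (src f) (src e)) ≤ M * (N : ℝ) ^ (4 - 3 * s) :=
    (Finset.sum_le_sum fun f _ => hin (src e) _).trans hout
  have s3 : ∑ f ∈ tEdges N, ∑ g ∈ tEdges N,
      G s (dT N (src g) (src f)) (dT N (src f) (src e)) ≤ M * (N : ℝ) ^ (4 - 3 * s) :=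
    (Finset.sum_le_sum fun f _ => hin (src f) _).trans hout
  calc ∑ f ∈ tEdges N, ∑ g ∈ (tEdges N).erase f, Pr q (Joint (DT N false) f g)
      ≤ ∑ f ∈ tEdges N, ∑ g ∈ tEdges N,
        K * (G s (dT N (src f) (src e)) (dT N (src g) (src e)) +
          G s (dT N (src g) (src e)) (dT N (src f) (src e)) +
          G s (dT N (src g) (src f)) (dT N (src f) (src e))) := by
        refine Finset.sum_le_sum fun f hf => ?_
        refine (Finset.sum_le_sum fun g hg => hterm f hf g hg).trans ?_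
        refine Finset.sum_le_sum_of_subset_of_nonneg (Finset.erase_subset _ _) fun g _ _ => ?_
        have g1 := G_nonneg s (dT N (src f) (src e)) (dT N (src g) (src e))
        have g2 := G_nonneg s (dT N (src g) (src e)) (dT N (src f) (src e))
        have g3 := G_nonneg s (dT N (src g) (src f)) (dT N (src f) (src e))
        exact mul_nonneg hK0.le (by linarith)
    _ = K * (∑ f ∈ tEdges N, ∑ g ∈ tEdges N, G s (dT N (src f) (src e)) (dT N (src g) (src e)) +
        ∑ f ∈ tEdges N, ∑ g ∈ tEdges N, G s (dT N (src g) (src e)) (dT N (src f) (src e)) +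
        ∑ f ∈ tEdges N, ∑ g ∈ tEdges N, G s (dT N (src g) (src f)) (dT N (src f) (src e))) := by
        rw [← Finset.sum_add_distrib, ← Finset.sum_add_distrib, Finset.mul_sum]
        refine Finset.sum_congr rfl fun f _ => ?_
        rw [← Finset.sum_add_distrib, ← Finset.sum_add_distrib, Finset.mul_sum]
    _ ≤ K * (3 * M) * (N : ℝ) ^ (4 - 3 * s) := by
        rw [mul_assoc]
        refine mul_le_mul_of_nonneg_left ?_ hK0.le
        linarith

end Pool.Agent.H31.AL
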